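import Pool.Agent.Lib.helper19.XiMain

open scoped ENNReal Topology
open Filter H19Xi

/-- For `λ = -1/4` a positive proportion of the zeros of `Ξ_λ` is non-real along a sequence
`T → ∞`; hence it is false that almost all zeros of `Ξ_λ` are real for every `λ < 0`. -/
theorem Pool.Agent.Results.MP_023270_nt.NonReal.result :
    ∃ lam : ℝ, lam < 0 ∧
      (∀ z : ℂ, MeasureTheory.Integrable fun t : ℝ =>
        ((Phi t * Real.exp (lam * t ^ 2) : ℝ) : ℂ) * Complex.exp (Complex.I * z * (t : ℂ))) ∧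
      Differentiable ℂ (Xi lam) ∧
      (∀ T : ℝ, zeroCount (Xi lam) (Metric.closedBall 0 T) < ⊤) ∧
      (∃ c : ℝ≥0∞, c < 1 ∧ ∃ᶠ T : ℝ in atTop,
        0 < zeroCount (Xi lam) {z | |z.re| ≤ T ∧ |z.im| ≤ T} ∧
        zeroCount (Xi lam) {z | z.im = 0 ∧ ‖z‖ ≤ T}
          ≤ c * zeroCount (Xi lam) {z | |z.re| ≤ T ∧ |z.im| ≤ T}) ∧
      ¬ Tendsto (fun T : ℝ => zeroCount (Xi lam) {z | z.im = 0 ∧ ‖z‖ ≤ T}
          / zeroCount (Xi lam) {z | |z.re| ≤ T}) atTop (𝓝 1) := by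
  refine ⟨-(1 / 4), by norm_num, Xi_integrable, Xi_diff, cnt_fin, main, fun h => ?_⟩
  obtain ⟨c, hc, hf⟩ := main
  obtain ⟨T, ⟨-, h1⟩, h2⟩ := (hf.and_eventually (h.eventually (lt_mem_nhds hc))).exists
  refine absurd h2 (not_lt.2 (ENNReal.div_le_of_le_mul (h1.trans ?_)))
  exact mul_le_mul_right (cnt_mono _ fun z hz => hz.1) _
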